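import Pool.Agent.P.MP_fc4783_an.NilStr
import Pool.Agent.P.MP_fc4783_an.NonConv

/-!
There is an integer sequence along which the averages of every 2-step nilsequence converge,
while the double averages of some bounded functions in some invertible measure preserving system
do not converge in the mean.
-/

namespace Pool.Agent.Results.MP_fc4783_an.Counterexample

open Filter Topology MeasureTheory

/-- `F` is Riemann integrable on the orbit closure `O` of `y` under `b`: it is bounded, and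
continuous on `O` at almost every point for a `b`-invariant Borel probability measure carried by
`O`. -/
def RiemannOnOrbit {G : Type} [Group G] [TopologicalSpace G] (Γ : Subgroup G) (b : G)
    (y : G ⧸ Γ) (F : G ⧸ Γ → ℂ) : Prop :=
  (∃ C : ℝ, ∀ z, ‖F z‖ ≤ C) ∧
    ∃ (_ : MeasurableSpace (G ⧸ Γ)) (_ : BorelSpace (G ⧸ Γ)) (m : Measure (G ⧸ Γ)),
      IsProbabilityMeasure m ∧ MeasurePreserving (fun z => b • z) m m ∧
      m (closure (Set.range fun k : ℤ => b ^ k • y))ᶜ = 0 ∧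
      ∀ᵐ z ∂m, ContinuousWithinAt F (closure (Set.range fun k : ℤ => b ^ k • y)) z

/-- Basic 2-step nilsequences `k ↦ F (b ^ k • y)`: `G` is a real Lie group (Hausdorff, second
countable, finite dimensional, not necessarily connected), nilpotent of step at most two, `Γ` is a
discrete cocompact subgroup, and `F` is continuous or Riemann integrable on the orbit closure. -/
def IsBasicNil (ψ : ℤ → ℂ) : Prop :=
  ∃ (d : ℕ) (G : Type) (_ : Group G) (_ : TopologicalSpace G) (_ : T2Space G)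
    (_ : SecondCountableTopology G) (_ : ChartedSpace (EuclideanSpace ℝ (Fin d)) G)
    (_ : LieGroup (modelWithCornersSelf ℝ (EuclideanSpace ℝ (Fin d))) ((⊤ : ℕ∞) : WithTop ℕ∞) G)
    (Γ : Subgroup G) (b : G) (y : G ⧸ Γ) (F : G ⧸ Γ → ℂ),
    Group.IsNilpotent G ∧ Group.nilpotencyClass G ≤ 2 ∧ DiscreteTopology Γ ∧
      CompactSpace (G ⧸ Γ) ∧ (Continuous F ∨ RiemannOnOrbit Γ b y F) ∧
      ∀ k : ℤ, ψ k = F (b ^ k • y)

/-- 2-step nilsequences: uniform limits of basic 2-step nilsequences. -/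
def IsNil (ψ : ℤ → ℂ) : Prop :=
  ∀ ε : ℝ, 0 < ε → ∃ φ : ℤ → ℂ, IsBasicNil φ ∧ ∀ k, ‖ψ k - φ k‖ ≤ ε

open Pool.Agent.P.MP_fc4783_an in
theorem result : ∃ a : ℕ → ℤ,
    (∀ ψ : ℤ → ℂ, IsNil ψ → ∃ l : ℂ,
      Tendsto (fun N : ℕ => (N : ℂ)⁻¹ * ∑ n ∈ Finset.Icc 1 N, ψ (a n)) atTop (𝓝 l)) ∧
    ∃ (X : Type) (_ : MeasurableSpace X) (μ : Measure X) (T : X ≃ᵐ X) (f g : X → ℂ),
      IsProbabilityMeasure μ ∧ MeasurePreserving T μ μ ∧ MeasurePreserving T.symm μ μ ∧
      MemLp f ⊤ μ ∧ MemLp g ⊤ μ ∧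
      ¬ ∃ h : X → ℂ, MemLp h 2 μ ∧ Tendsto (fun N : ℕ => eLpNorm (fun x =>
        (N : ℂ)⁻¹ * ∑ n ∈ Finset.Icc 1 N,
          f ((T.toEquiv ^ a n) x) * g ((T.toEquiv ^ (2 * a n)) x) - h x) 2 μ) atTop (𝓝 0) := by
  obtain ⟨θ, ν, n, n', L, hS⟩ := exists_spec
  obtain ⟨a, ha1, r, hr, ha2⟩ := exists_seq (bias θ (ν 0))
  obtain ⟨X, mX, μ, hμ, T, f, hT, hf, hf1, hC⟩ := exists_system θ
  have hfL : MemLp f ⊤ μ := memLp_top_of_bound hf.aestronglyMeasurable 1 (ae_of_all _ hf1)
  refine ⟨a, fun ψ hψ => ?_, X, mX, μ, T, f, f, hμ, hT, hT.symm T, hfL, hfL, ?_⟩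
  · refine conv_of_approx fun ε hε => ?_
    obtain ⟨φ, hφ, hψφ⟩ := hψ ε hε
    have key : ∃ l, Tendsto (ces a φ) atTop (𝓝 l) := by
      obtain ⟨d, G, _, _, _, _, _, _, Γ, b, y, F, hn1, hn2, hd, hc, hF, he⟩ := hφ
      have : IsTopologicalGroup G := topologicalGroup_of_lieGroup
        (modelWithCornersSelf ℝ (EuclideanSpace ℝ (Fin d))) ((⊤ : ℕ∞) : WithTop ℕ∞)
      have h2 : ∀ a b c : G, Commute (a * b * a⁻¹ * b⁻¹) c := by
        intro a b c
        have h3 := Subgroup.lowerCentralSeries_eq_bot_iff_nilpotencyClass_le.2 hn2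
        have h4 : a * b * a⁻¹ * b⁻¹ * c * (a * b * a⁻¹ * b⁻¹)⁻¹ * c⁻¹ ∈
            (⊤ : Subgroup G).lowerCentralSeries 2 :=
          Subgroup.commutator_mem_commutator
            (Subgroup.commutator_mem_commutator (Subgroup.mem_top a) (Subgroup.mem_top b))
            (Subgroup.mem_top c)
        rw [h3, Subgroup.mem_bot] at h4
        exact commutatorElement_eq_one_iff_commute.1 h4
      obtain ⟨A, hA, hstr⟩ := nil_str (d := d) G h2 Γ b y
      obtain rfl : φ = fun k => F (b ^ k • y) := funext he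
      rcases hF with hF | ⟨⟨C, hFC⟩, _, _, m, hm1, hm2, hm3, hm4⟩
      · obtain ⟨l, hl⟩ := hS.bias_str (hstr F hF)
        obtain ⟨C, hFC⟩ := (isCompact_range hF.norm).bddAbove
        exact ⟨l, ha1 _ C l (fun s => hFC ⟨_, rfl⟩) hl⟩
      · obtain ⟨l, hl⟩ := hS.bias_riem m (fun z => b • z) (continuous_const_smul b) hm2.map_eq
          (fun k : ℤ => b ^ k • y) (fun s => by rw [← mul_smul, add_comm, zpow_one_add]) hm3 A hA
          hstr F C hFC hm4
        exact ⟨l, ha1 _ C l (fun s => hFC _) hl⟩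
    obtain ⟨l, hl⟩ := key
    refine ⟨_, l, hl, ?_⟩
    filter_upwards [eventually_gt_atTop 0] with N hN
    rw [ces, ← mul_sub, ← Finset.sum_sub_distrib, norm_mul, norm_inv, Complex.norm_natCast,
      inv_mul_le_iff₀ (by exact_mod_cast hN)]
    refine (norm_sum_le _ _).trans ((Finset.sum_le_sum fun k _ => hψφ (a k)).trans ?_)
    simp
  · rintro ⟨h, hh, hl⟩
    have h1 := (ces_tendsto_of_L2 μ T f hf hf1 a h hh hl).comp hr
    have h2 := ha2 (fun s => ∫ x, f x * f ((T.toEquiv ^ s) x) * f ((T.toEquiv ^ (2 * s)) x) ∂μ)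
      1 fun s => by
        refine (norm_integral_le_of_norm_le_const (C := 1) (ae_of_all _ fun x => ?_)).trans
          (by simp)
        rw [norm_mul, norm_mul]
        exact mul_le_one₀ (mul_le_one₀ (hf1 _) (by positivity) (hf1 _)) (by positivity) (hf1 _)
    have h3 := h1.sub h2
    simp only [Function.comp, sub_sub_cancel] at h3
    exact not_tendsto_of_osc (hS.osc _ hC) _ h3

end Pool.Agent.Results.MP_fc4783_an.Counterexample
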